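import Pool.Agent.Helper26.HN.Stmts
import Pool.Agent.Helper49.PW.NR

/-! # Row NRC (MP_56acfd_mp): number of electrons near the nuclei, from the cubes -/

set_option autoImplicit false

namespace Pool.Agent.Helper99.HN

open MeasureTheory Filter Pool.Agent.Helper95 Pool.Agent.Helper95.PW Pool.Agent.Helper95.LN
  Pool.Agent.Helper26.HN Pool.Agent.Helper95.PW.NR49

/-- corners of the cubes -/
noncomputable def NRC_c (a : R3) (r : ℝ) {m : ℕ} (j : Fin 3 → Fin m) : R3 :=
  fun i => a i - r + 2 * r / m * (j i : ℝ)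

theorem NRC_sq (y : R3) : nr y ^ 2 = y 0 ^ 2 + y 1 ^ 2 + y 2 ^ 2 :=
  Real.sq_sqrt (by positivity)

theorem NRC_coord (y : R3) (i : Fin 3) : |y i| ≤ nr y := by
  have h0 : 0 ≤ nr y := Real.sqrt_nonneg _
  apply abs_le_of_sq_le_sq _ h0
  rw [NRC_sq]
  fin_cases i
  · change y 0 ^ 2 ≤ _
    nlinarith [sq_nonneg (y 1), sq_nonneg (y 2)]
  · change y 1 ^ 2 ≤ _
    nlinarith [sq_nonneg (y 0), sq_nonneg (y 2)]
  · change y 2 ^ 2 ≤ _
    nlinarith [sq_nonneg (y 0), sq_nonneg (y 1)]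

theorem NRC_cover {r : ℝ} (hr : 0 < r) {m : ℕ} (hm : 1 ≤ m) {y a : R3} (hy : nr (y - a) < r) :
    ∃ j : Fin 3 → Fin m, y ∈ cube (NRC_c a r j) (2 * r / m) := by
  have hm' : (0 : ℝ) < m := by exact_mod_cast hm
  have hl : 0 < 2 * r / m := by positivity
  have hex : ∀ i, ∃ j : Fin m, a i - r + 2 * r / m * (j : ℝ) ≤ y i ∧
      y i < a i - r + 2 * r / m * (j : ℝ) + 2 * r / m := by
    intro i
    have h0 : |y i - a i| < r := (NRC_coord (y - a) i).trans_lt hy
    obtain ⟨h1, h2⟩ := abs_lt.1 h0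
    obtain ⟨t, ht⟩ : ∃ t : ℝ, t = (y i - a i + r) / (2 * r / m) := ⟨_, rfl⟩
    have ht0 : 0 ≤ t := by
      rw [ht]
      exact div_nonneg (by linarith) hl.le
    have htm : t < m := by
      rw [ht, div_lt_iff₀ hl]
      have : (m : ℝ) * (2 * r / m) = 2 * r := by field_simp
      rw [this]
      linarith
    have ht2 : 2 * r / m * t = y i - a i + r := by
      rw [ht]
      field_simp
    have hfl : (⌊t⌋₊ : ℝ) ≤ t := Nat.floor_le ht0
    have hfu : t < ⌊t⌋₊ + 1 := Nat.lt_floor_add_one t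
    refine ⟨⟨⌊t⌋₊, (Nat.floor_lt ht0).2 htm⟩, ?_, ?_⟩
    · have h3 : 2 * r / m * (⌊t⌋₊ : ℝ) ≤ 2 * r / m * t := mul_le_mul_of_nonneg_left hfl hl.le
      change a i - r + 2 * r / m * (⌊t⌋₊ : ℝ) ≤ y i
      linarith
    · have h3 : 2 * r / m * t < 2 * r / m * (⌊t⌋₊ + 1) := mul_lt_mul_of_pos_left hfu hl
      change y i < a i - r + 2 * r / m * (⌊t⌋₊ : ℝ) + 2 * r / m
      linarith
  choose j hj using hex
  exact ⟨j, hj⟩

/-- the cubes are inside the cube of half side `r` -/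
theorem NRC_in {r : ℝ} (hr : 0 < r) {m : ℕ} (hm : 1 ≤ m) {y a : R3} {j : Fin 3 → Fin m}
    (h : y ∈ cube (NRC_c a r j) (2 * r / m)) (i : Fin 3) : -r ≤ y i - a i ∧ y i - a i < r := by
  have hm' : (0 : ℝ) < m := by exact_mod_cast hm
  have hl : 0 < 2 * r / m := by positivity
  obtain ⟨h1, h2⟩ := h i
  unfold NRC_c at h1 h2
  have h3 : 0 ≤ 2 * r / m * (j i : ℝ) := by positivity
  have h4 : ((j i : ℕ) : ℝ) + 1 ≤ m := by
    have := (j i).isLt
    exact_mod_cast this
  have h5 := mul_le_mul_of_nonneg_left h4 hl.le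
  have h6 : 2 * r / m * (m : ℝ) = 2 * r := by field_simp
  rw [h6] at h5
  constructor <;> linarith

theorem NRC_disj {M : ℕ} {X : Fin M → R3} {d r : ℝ} (hX : Sep X d) (hr : 0 < r) (hrd : r ≤ d)
    {m : ℕ} (hm : 1 ≤ m) {p p' : Fin M × (Fin 3 → Fin m)} {y : R3}
    (h : y ∈ cube (NRC_c (X p.1) r p.2) (2 * r / m))
    (h' : y ∈ cube (NRC_c (X p'.1) r p'.2) (2 * r / m)) : p = p' := by
  have hm' : (0 : ℝ) < m := by exact_mod_cast hm
  have hl : 0 < 2 * r / m := by positivity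
  have h1 : p.1 = p'.1 := by
    by_contra hne
    have h2 := hX _ _ hne
    have h3 := NRC_sq (X p.1 - X p'.1)
    simp only [Pi.sub_apply] at h3
    have h4 : (4 * d) ^ 2 ≤ nr (X p.1 - X p'.1) ^ 2 := pow_le_pow_left₀ (by linarith) h2 2
    have key : ∀ i, (X p.1 i - X p'.1 i) ^ 2 ≤ (2 * r) ^ 2 := by
      intro i
      obtain ⟨a1, a2⟩ := NRC_in hr hm h i
      obtain ⟨b1, b2⟩ := NRC_in hr hm h' i
      apply sq_le_sq'
      · linarith
      · linarith
    have k0 := key 0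
    have k1 := key 1
    have k2 := key 2
    have h5 : r ^ 2 ≤ d ^ 2 := pow_le_pow_left₀ hr.le hrd 2
    nlinarith
  apply Prod.ext h1
  rw [h1] at h
  funext i
  obtain ⟨a1, a2⟩ := h i
  obtain ⟨b1, b2⟩ := h' i
  unfold NRC_c at a1 a2 b1 b2
  have h1 : ((p.2 i : ℕ) : ℝ) < (p'.2 i : ℕ) + 1 := by
    by_contra hc
    push Not at hc
    have := mul_le_mul_of_nonneg_left hc hl.le
    nlinarith
  have h2 : ((p'.2 i : ℕ) : ℝ) < (p.2 i : ℕ) + 1 := by
    by_contra hc
    push Not at hc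
    have := mul_le_mul_of_nonneg_left hc hl.le
    nlinarith
  have h3 : (p.2 i : ℕ) < (p'.2 i : ℕ) + 1 := by exact_mod_cast h1
  have h4 : (p'.2 i : ℕ) < (p.2 i : ℕ) + 1 := by exact_mod_cast h2
  apply Fin.ext
  omega

theorem NRC_meas {n : ℕ} (k : Fin n) (a : R3) (r : ℝ) :
    MeasurableSet {x : Cf n | nr (x k - a) < r} :=
  (isOpen_lt (nr_cont.comp ((continuous_apply k).sub continuous_const))
    continuous_const).measurableSet

theorem NRC_lower {n : ℕ} (k : Fin n) (a : R3) {r : ℝ} (hr : 0 < r) {m : ℕ} (hm : 1 ≤ m)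
    {f : Cf n → ℝ} (hf : Integrable f) (h0 : ∀ x, 0 ≤ f x) :
    ∫ x in {x : Cf n | nr (x k - a) < r}, f x ≤
      ∑ j : Fin 3 → Fin m, ∫ x in {x : Cf n | x k ∈ cube (NRC_c a r j) (2 * r / m)}, f x := by
  have hX : Sep (fun _ : Fin 1 => a) r := by
    intro i j hij
    exact absurd (Subsingleton.elim i j) hij
  rw [← integral_iUnion_fintype (fun j => cube_meas' k _ _) (by
    intro j j' hjj
    rw [Function.onFun, Set.disjoint_left]
    intro x hx hx'
    apply hjj
    have h5 := NRC_disj (X := fun _ : Fin 1 => a) (d := r) hX hr le_rfl hm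
      (p := ((0 : Fin 1), j)) (p' := ((0 : Fin 1), j')) hx hx'
    exact congrArg Prod.snd h5) fun j => hf.integrableOn]
  apply setIntegral_mono_set hf.integrableOn
  · exact Filter.Eventually.of_forall fun x => h0 x
  · apply Filter.Eventually.of_forall
    intro x hx
    obtain ⟨j, hj⟩ := NRC_cover hr hm (show nr (x k - a) < r from hx)
    exact Set.mem_iUnion.2 ⟨j, hj⟩

theorem NRC_upper {n M : ℕ} {X : Fin M → R3} {d r : ℝ} (hX : Sep X d) (hr : 0 < r) (hrd : r ≤ d)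
    (k : Fin n) {m : ℕ} (hm : 1 ≤ m) {f : Cf n → ℝ} (hf : Integrable f) (h0 : ∀ x, 0 ≤ f x) :
    ∑ p : Fin M × (Fin 3 → Fin m),
      ∫ x in {x : Cf n | x k ∈ cube (NRC_c (X p.1) r p.2) (2 * r / m)}, f x ≤ ∫ x, f x := by
  rw [← integral_iUnion_fintype (fun p => cube_meas' k _ _) (by
    intro p p' hpp
    rw [Function.onFun, Set.disjoint_left]
    intro x hx hx'
    exact hpp (NRC_disj hX hr hrd hm hx hx')) fun p => hf.integrableOn]
  exact setIntegral_le_integral hf (Filter.Eventually.of_forall fun x => h0 x)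

theorem NRC_one {n M : ℕ} (X : Fin M → R3) (u : Wf n) (hu : Sm u) (r : ℝ) :
    one (nbr X r) u = ∑ k, ∑ s, ∑ i, ∫ x in {x : Cf n | nr (x k - X i) < r}, u s x ^ 2 := by
  unfold one
  rw [Finset.sum_comm]
  refine Finset.sum_congr rfl fun s _ => ?_
  have hint := int_sq (hu s).1.continuous (hu s).2
  have h2 : ∀ x : Cf n, (∑ k, nbr X r (x k)) * u s x ^ 2 =
      ∑ k, ∑ i, Set.indicator {x : Cf n | nr (x k - X i) < r} (fun x => u s x ^ 2) x := by
    intro x
    rw [Finset.sum_mul]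
    refine Finset.sum_congr rfl fun k _ => ?_
    unfold nbr
    rw [Finset.sum_mul]
    refine Finset.sum_congr rfl fun i _ => ?_
    by_cases hx : nr (x k - X i) < r
    · rw [Set.indicator_of_mem (show x ∈ {x : Cf n | nr (x k - X i) < r} from hx), if_pos hx,
        one_mul]
    · rw [Set.indicator_of_notMem (show x ∉ {x : Cf n | nr (x k - X i) < r} from hx), if_neg hx,
        zero_mul]
  simp only [h2]
  rw [integral_finsetSum _ fun k _ => integrable_finsetSum _ fun i _ =>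
    hint.indicator (NRC_meas k (X i) r)]
  refine Finset.sum_congr rfl fun k _ => ?_
  rw [integral_finsetSum _ fun i _ => hint.indicator (NRC_meas k (X i) r)]
  refine Finset.sum_congr rfl fun i _ => ?_
  rw [integral_indicator (NRC_meas k (X i) r)]

theorem NRC_swap {n : ℕ} {ι : Type} [Fintype ι] (F : Fin n → (Fin n → Fin 2) → ι → ℝ) :
    ∑ k, ∑ s, ∑ j, F k s j = ∑ j, ∑ k, ∑ s, F k s j := by
  have h : ∀ k, ∑ s, ∑ j, F k s j = ∑ j, ∑ s, F k s j := fun k => Finset.sum_comm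
  rw [Finset.sum_congr rfl fun k _ => h k]
  exact Finset.sum_comm

theorem st_NRC (h1 : ST_CUB) (_h2 : ST_INZ) : ST_NRC := by
  obtain ⟨C, hC, hcub⟩ := h1
  refine ⟨4 + 4 * C, by positivity, ?_⟩
  intro n M X d r u m hX hr hrd hu ha hsq hm
  have hm' : (0 : ℝ) < m := by exact_mod_cast hm
  have hl : 0 < 2 * r / m := by positivity
  have hdint : ∀ (k : Fin n) (s : Fin n → Fin 2),
      Integrable (fun x => ∑ i, dv k i (u s) x ^ 2) := by
    intro k s
    apply integrable_finsetSum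
    intro i _
    obtain ⟨h1, h2⟩ := dv_sm (hu s).1 (hu s).2 k i
    exact int_sq h1 h2
  have hkin := kin_nn u
  have hmain : one (nbr X r) u ≤
      (M * (m : ℝ) ^ 3) * (2 * PW.sq u) + C * (2 * r / m) ^ 2 * kin u := by
    calc one (nbr X r) u
        = ∑ k, ∑ s, ∑ i, ∫ x in {x : Cf n | nr (x k - X i) < r}, u s x ^ 2 := NRC_one X u hu r
      _ ≤ ∑ k, ∑ s, ∑ p : Fin M × (Fin 3 → Fin m),
            ∫ x in {x : Cf n | x k ∈ cube (NRC_c (X p.1) r p.2) (2 * r / m)}, u s x ^ 2 := by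
          refine Finset.sum_le_sum fun k _ => Finset.sum_le_sum fun s _ => ?_
          rw [Fintype.sum_prod_type]
          refine Finset.sum_le_sum fun i _ => ?_
          exact NRC_lower k (X i) hr hm (int_sq (hu s).1.continuous (hu s).2) fun x => sq_nonneg _
      _ = ∑ p : Fin M × (Fin 3 → Fin m), ∑ k, ∑ s,
            ∫ x in {x : Cf n | x k ∈ cube (NRC_c (X p.1) r p.2) (2 * r / m)}, u s x ^ 2 := by
          exact NRC_swap _
      _ ≤ ∑ p : Fin M × (Fin 3 → Fin m), (2 * PW.sq u + C * (2 * r / m) ^ 2 * ∑ k, ∑ s,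
            ∫ x in {x : Cf n | x k ∈ cube (NRC_c (X p.1) r p.2) (2 * r / m)},
              ∑ i, dv k i (u s) x ^ 2) := by
          exact Finset.sum_le_sum fun p _ => hcub n u _ _ hu ha hl
      _ = (M * (m : ℝ) ^ 3) * (2 * PW.sq u) + C * (2 * r / m) ^ 2 * ∑ k, ∑ s,
            ∑ p : Fin M × (Fin 3 → Fin m),
            ∫ x in {x : Cf n | x k ∈ cube (NRC_c (X p.1) r p.2) (2 * r / m)},
              ∑ i, dv k i (u s) x ^ 2 := by
          rw [Finset.sum_add_distrib]
          congr 1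
          · rw [Finset.sum_const, Finset.card_univ, Fintype.card_prod, Fintype.card_fun,
              Fintype.card_fin, Fintype.card_fin, Fintype.card_fin, nsmul_eq_mul]
            push_cast
            ring
          · rw [← Finset.mul_sum]
            congr 1
            exact (NRC_swap _).symm
      _ ≤ (M * (m : ℝ) ^ 3) * (2 * PW.sq u) + C * (2 * r / m) ^ 2 * ∑ k, ∑ s,
            ∫ x, ∑ i, dv k i (u s) x ^ 2 := by
          have h1 : ∑ k, ∑ s, ∑ p : Fin M × (Fin 3 → Fin m),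
              ∫ x in {x : Cf n | x k ∈ cube (NRC_c (X p.1) r p.2) (2 * r / m)},
                ∑ i, dv k i (u s) x ^ 2 ≤ ∑ k, ∑ s, ∫ x, ∑ i, dv k i (u s) x ^ 2 := by
            refine Finset.sum_le_sum fun k _ => Finset.sum_le_sum fun s _ => ?_
            exact NRC_upper hX hr hrd k hm (hdint k s)
              fun x => Finset.sum_nonneg fun i _ => sq_nonneg _
          have h2 : 0 ≤ C * (2 * r / m) ^ 2 := by positivity
          have h3 := mul_le_mul_of_nonneg_left h1 h2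
          linarith
      _ = (M * (m : ℝ) ^ 3) * (2 * PW.sq u) + C * (2 * r / m) ^ 2 * kin u := by rw [kin_eq u hu]
  have h3 : (M * (m : ℝ) ^ 3) * (2 * PW.sq u) ≤ (M * (m : ℝ) ^ 3) * 4 :=
    mul_le_mul_of_nonneg_left (by linarith) (by positivity)
  have h4 : C * (2 * r / m) ^ 2 * kin u = 4 * C * (kin u * r ^ 2 / (m : ℝ) ^ 2) := by
    field_simp
    ring
  rw [h4] at hmain
  have h5 : 0 ≤ kin u * r ^ 2 / (m : ℝ) ^ 2 := by positivity
  have h6 : 0 ≤ (M : ℝ) * (m : ℝ) ^ 3 := by positivity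
  have h7 : 0 ≤ C * ((M : ℝ) * (m : ℝ) ^ 3) := by positivity
  nlinarith

theorem NRC (h1 : ST_CUB) (h2 : ST_INZ) : ST_NRC := st_NRC h1 h2

end Pool.Agent.Helper99.HN
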